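import Pool.Agent.Q280.MD.Over2

/-!
# Filtrations of weighted predimensions: the largest defects add
-/

set_option autoImplicit false

open Matroid Set Q241.SX Filter Topology

namespace Pool.Agent.Q280.MD

namespace SysW

variable {A : SysW}

open Classical in
/-- independent families over the field of `B` from inequalities over large finite subsets of `B` -/
theorem family_of {B : Set A.O} {n : ℕ} (z : Fin n → A.X) {m : ℕ}
    (h : ∀ V : Finset A.O, (V : Set A.O) ⊆ B → ∃ W : Finset A.O, V ⊆ W ∧ (W : Set A.O) ⊆ B ∧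
      rN W + m ≤ rN (W ∪ img z)) :
    ∃ w : Fin m → ℂ, (∀ k, w k ∈ ⋃ i, A.S (z i)) ∧
      AlgebraicIndependent (IntermediateField.adjoin ℚ (A.P B)) w := by
  refine exists_family_over (finite_iUnion fun i => A.fin (z i)) fun T hT hTB => ?_
  obtain ⟨V, hV1, hV2⟩ := exists_classes hT hTB
  obtain ⟨W, hW1, hW2, hW3⟩ := h V hV1
  refine ⟨A.P (W : Set A.O), hV2.trans (P_mono (Finset.coe_subset.mpr hW1)),
    (P_mono hW2).trans (subset_cl _), rk_ne_top W, ?_⟩
  have h5 : ((rN W + m : ℕ) : ℕ∞) ≤ A.rk ((W ∪ img z : Finset A.O) : Set A.O) := by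
    rw [← coe_rN]
    exact_mod_cast hW3
  have h6 : A.rk (W : Set A.O) + ((m : ℕ) : ℕ∞) ≤ A.rk ((W ∪ img z : Finset A.O) : Set A.O) := by
    rw [← coe_rN W]
    exact_mod_cast h5
  refine h6.trans ?_
  rw [Finset.coe_union, rk, P_union, ← M.eRk_closure_eq ((⋃ i, A.S (z i)) ∪ A.P (W : Set A.O))]
  refine M.eRk_mono (union_subset (subset_union_right.trans (subset_cl _)) ?_)
  exact (P_img z).trans (cl_mono subset_union_left)

open Classical in
/-- adding a point with enough relations does not decrease the defect -/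
theorem dfc_step (V : Finset A.O) (x : A.X)
    (hx : M.eRk (A.P V ∪ A.S x) ≤ A.rk V + A.w x) : dfc V ≤ dfc (insert (A.q x) V) := by
  by_cases h : A.q x ∈ V
  · rw [Finset.insert_eq_of_mem h]
  · have h2 : A.Wt (insert (A.q x) V) = A.Wt V + A.w x := by
      unfold Wt
      rw [Finset.sum_insert h, wt_q, add_comm]
    have h3 : ((rN (insert (A.q x) V) : ℕ) : ℕ∞) ≤ ((rN V + A.w x : ℕ) : ℕ∞) := by
      rw [coe_rN, Nat.cast_add, coe_rN]
      exact (rk_insert_le V x).trans hx
    have h4 : rN (insert (A.q x) V) ≤ rN V + A.w x := by exact_mod_cast h3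
    unfold dfc
    rw [h2]
    push_cast
    omega

/-- the classes of the points obtained by finitely many steps -/
def CFc (A : SysW) : Set A.O := {v | ∃ x, A.q x = v ∧ A.CF x}

open Classical in
theorem absorb_CF {x : A.X} (hx : A.CF x) :
    ∀ V : Finset A.O, ∃ W : Finset A.O, V ⊆ W ∧ dfc V ≤ dfc W ∧ A.q x ∈ W ∧
      (W : Set A.O) ⊆ V ∪ CFc A := by
  induction hx with
  | intro F x hF hx ih =>
    intro V
    have key : ∀ E : Finset A.X, (∀ y ∈ E, y ∈ F) → ∃ W : Finset A.O, V ⊆ W ∧ dfc V ≤ dfc W ∧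
        E.image A.q ⊆ W ∧ (W : Set A.O) ⊆ V ∪ CFc A := by
      intro E
      induction E using Finset.induction_on with
      | empty => intro _; exact ⟨V, le_rfl, le_rfl, by simp, subset_union_left⟩
      | insert a E _ ihE =>
        intro hE
        obtain ⟨W, h1, h2, h3, h4⟩ := ihE fun y hy => hE y (Finset.mem_insert_of_mem hy)
        obtain ⟨W', h1', h2', h3', h4'⟩ := ih a (hE a (Finset.mem_insert_self _ _)) W
        refine ⟨W', h1.trans h1', h2.trans h2', ?_, h4'.trans (union_subset h4 subset_union_right)⟩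
        rw [Finset.image_insert]
        exact Finset.insert_subset h3' (h3.trans h1')
    obtain ⟨W, h1, h2, h3, h4⟩ := key F fun y hy => hy
    have h5 : ((F.image A.q : Finset A.O) : Set A.O) ⊆ (W : Set A.O) := Finset.coe_subset.mpr h3
    refine ⟨insert (A.q x) W, h1.trans (Finset.subset_insert _ _),
      h2.trans (dfc_step W x (rel_mono h5 (rk_ne_top _) (rk_image F _ x hx))),
      Finset.mem_insert_self _ _, ?_⟩
    rw [Finset.coe_insert]
    exact insert_subset (Or.inr ⟨x, rfl, CF.intro F x hF hx⟩) h4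

open Classical in
theorem absorb_finset (L : Finset A.O) (hL : (L : Set A.O) ⊆ CFc A) (V : Finset A.O) :
    ∃ W : Finset A.O, V ⊆ W ∧ dfc V ≤ dfc W ∧ L ⊆ W ∧ (W : Set A.O) ⊆ V ∪ CFc A := by
  induction L using Finset.induction_on with
  | empty => exact ⟨V, le_rfl, le_rfl, by simp, subset_union_left⟩
  | insert a E _ ihE =>
    obtain ⟨W, h1, h2, h3, h4⟩ := ihE fun v hv => hL (Finset.mem_coe.mpr (Finset.mem_insert_of_mem hv))
    obtain ⟨x, rfl, hx⟩ := hL (Finset.mem_coe.mpr (Finset.mem_insert_self _ _))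
    obtain ⟨W', h1', h2', h3', h4'⟩ := absorb_CF hx W
    exact ⟨W', h1.trans h1', h2.trans h2', Finset.insert_subset h3' (h3.trans h1'),
      h4'.trans (union_subset h4 subset_union_right)⟩

/-- the largest defect of a subset of `B` is attained, if there is a bound -/
theorem exists_max (B : Set A.O) {C : ℕ} (h : ∀ V : Finset A.O, (V : Set A.O) ⊆ B → dfc V ≤ C) :
    ∃ (a : ℕ) (W : Finset A.O), (W : Set A.O) ⊆ B ∧ dfc W = a ∧ ∀ V : Finset A.O, (V : Set A.O) ⊆ B → dfc V ≤ a := by
  classical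
  have h0 : ∃ a : ℕ, ∀ V : Finset A.O, (V : Set A.O) ⊆ B → dfc V ≤ a := ⟨C, h⟩
  have h1 := Nat.find_spec h0
  by_contra hcon
  push Not at hcon
  rcases Nat.eq_zero_or_pos (Nat.find h0) with hz | hp
  · obtain ⟨V, hV1, hV2⟩ := hcon 0 ∅ (by simp) (by rw [dfc_empty]; rfl)
    have h2 := h1 V hV1
    rw [hz] at h2
    omega
  · refine Nat.find_min h0 (Nat.sub_lt hp one_pos) fun V hV => ?_
    have h2 := h1 V hV
    rcases lt_or_eq_of_le h2 with h3 | h3
    · omega
    · obtain ⟨V', hV1, hV2⟩ := hcon _ V hV h3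
      exact absurd (h1 V' hV1) (not_le.mpr hV2)

open Classical in
theorem rN_mono {V W : Finset A.O} (h : V ⊆ W) : rN V ≤ rN W := by
  have h1 : ((rN V : ℕ) : ℕ∞) ≤ ((rN W : ℕ) : ℕ∞) := by
    rw [coe_rN, coe_rN]
    exact M.eRk_mono (P_mono (Finset.coe_subset.mpr h))
  exact_mod_cast h1

open Classical in
/-- from independent families over the field of `B` to ranks -/
theorem rank_of_family {B : Set A.O} {V : Finset A.O} (hV : (V : Set A.O) ⊆ B) {n : ℕ} (z : Fin n → A.X)
    {m : ℕ} (w : Fin m → ℂ) (hw : ∀ k, w k ∈ ⋃ i, A.S (z i))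
    (hind : AlgebraicIndependent (IntermediateField.adjoin ℚ (A.P B)) w) : rN V + m ≤ rN (V ∪ img z) := by
  have h5 := rank_of_indep (T := A.P (V : Set A.O)) ((P_mono hV).trans (subset_cl _)) _ w hind
  have h6 : M.eRk (A.P (V : Set A.O) ∪ range w) ≤ A.rk ((V ∪ img z : Finset A.O) : Set A.O) := by
    refine M.eRk_mono (union_subset (P_mono (Finset.coe_subset.mpr Finset.subset_union_left)) ?_)
    rintro _ ⟨k, rfl⟩
    exact P_mono (Finset.coe_subset.mpr Finset.subset_union_right) (img_P z (hw k))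
  have h7 := h5.trans h6
  have h8 : ((rN V + m : ℕ) : ℕ∞) ≤ ((rN (V ∪ img z) : ℕ) : ℕ∞) := by
    rw [coe_rN, Nat.cast_add, coe_rN]
    exact h7
  exact_mod_cast h8

end SysW

end Pool.Agent.Q280.MD
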